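import Pool.Agent.H50R2.Commuting

set_option autoImplicit false

/-!
# MP_71689c_al : the word problem of the Grigorchuk group is not an indexed language

The general theorem `not_isIndexed_of_families` says that a group whose word problem is indexed does
not contain commuting families of `m` elements of length `ℓ` with pairwise distinct subproducts and
with `2 ^ m` growing faster than every power of `ℓ`.  In the Grigorchuk group the `2 ^ j` copies of
`(ab)^2` at the vertices of level `j` have length at most `5 * 3 ^ j`.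
-/

namespace Pool.Agent.Results.MP_71689c_al.NotIndexed

open Pool.Agent.H50R2

/-- The generators `a`, `b`, `c`, `d`. -/
inductive Gen : Type
  | a : Gen
  | b : Gen
  | c : Gen
  | d : Gen

open FreeGroup (of)

/-- The endomorphism `σ` of the free group: `a ↦ aca`, `b ↦ d`, `c ↦ b`, `d ↦ c`. -/
def sigma : FreeGroup Gen →* FreeGroup Gen :=
  FreeGroup.lift (fun x => match x with
    | Gen.a => of Gen.a * of Gen.c * of Gen.a
    | Gen.b => of Gen.d
    | Gen.c => of Gen.b
    | Gen.d => of Gen.c)

/-- The relators `bcd`, `(ad)^4`, `(adacac)^4` and the squares of the generators. -/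
def baseRels : Set (FreeGroup Gen) :=
  {r | r = of Gen.b * of Gen.c * of Gen.d ∨ r = (of Gen.a * of Gen.d) ^ 4 ∨
    r = (of Gen.a * of Gen.d * of Gen.a * of Gen.c * of Gen.a * of Gen.c) ^ 4 ∨
    ∃ x : Gen, r = of x ^ 2}

/-- The relators `σ^n(r)`. -/
def rels : Set (FreeGroup Gen) := {x | ∃ n : ℕ, ∃ r ∈ baseRels, x = sigma^[n] r}

/-- The Grigorchuk group. -/
abbrev Grigorchuk : Type := PresentedGroup rels

/-- The alphabet `S ∪ S⁻¹` of 8 letters: `(x, true)` stands for `x` and `(x, false)` for `x⁻¹`. -/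
def letter (x : Gen × Bool) : Grigorchuk :=
  if x.2 then PresentedGroup.of x.1 else (PresentedGroup.of x.1)⁻¹

/-- The word problem of the Grigorchuk group. -/
def wordProblem : Language (Gen × Bool) := {w : List (Gen × Bool) | (w.map letter).prod = 1}

/-! ### The action on binary words -/

/-- The action of the generators on finite binary words. -/
def act : Gen → List Bool → List Bool
  | _, [] => []
  | Gen.a, x :: u => (!x) :: u
  | Gen.b, false :: u => false :: act Gen.a u
  | Gen.b, true :: u => true :: act Gen.c u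
  | Gen.c, false :: u => false :: act Gen.a u
  | Gen.c, true :: u => true :: act Gen.d u
  | Gen.d, false :: u => false :: u
  | Gen.d, true :: u => true :: act Gen.b u

@[simp] lemma act_nil (g : Gen) : act g [] = [] := by cases g <;> rfl
@[simp] lemma act_a (x : Bool) (u : List Bool) : act Gen.a (x :: u) = (!x) :: u := rfl
@[simp] lemma act_bf (u : List Bool) : act Gen.b (false :: u) = false :: act Gen.a u := rfl
@[simp] lemma act_bt (u : List Bool) : act Gen.b (true :: u) = true :: act Gen.c u := rfl
@[simp] lemma act_cf (u : List Bool) : act Gen.c (false :: u) = false :: act Gen.a u := rfl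
@[simp] lemma act_ct (u : List Bool) : act Gen.c (true :: u) = true :: act Gen.d u := rfl
@[simp] lemma act_df (u : List Bool) : act Gen.d (false :: u) = false :: u := rfl
@[simp] lemma act_dt (u : List Bool) : act Gen.d (true :: u) = true :: act Gen.b u := rfl

@[simp] lemma act_act (g : Gen) (u : List Bool) : act g (act g u) = u := by
  induction u generalizing g with
  | nil => simp
  | cons x u ih => cases g <;> cases x <;> simp [ih]

lemma act_bcd (u : List Bool) : act Gen.b (act Gen.c (act Gen.d u)) = u ∧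
    act Gen.c (act Gen.d (act Gen.b u)) = u ∧ act Gen.d (act Gen.b (act Gen.c u)) = u := by
  induction u with
  | nil => simp
  | cons x u ih => cases x <;> simp [ih.1, ih.2.1, ih.2.2]

/-- The permutations of the set of binary words. -/
abbrev PB : Type := Equiv.Perm (List Bool)

/-- The permutation given by a generator. -/
def P (g : Gen) : PB := ⟨act g, act g, act_act g, act_act g⟩

@[simp] lemma P_apply (g : Gen) (u : List Bool) : P g u = act g u := rfl

/-- Act by `f` below `false` and by `g` below `true`. -/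
def J0 (f g : List Bool → List Bool) : List Bool → List Bool
  | [] => []
  | false :: u => false :: f u
  | true :: u => true :: g u

/-- Act by `f` below `false` and by `g` below `true`. -/
def J (f g : PB) : PB where
  toFun := J0 f g
  invFun := J0 f.symm g.symm
  left_inv := by
    intro u
    rcases u with _ | ⟨x, u⟩
    · rfl
    · cases x <;> simp [J0]
  right_inv := by
    intro u
    rcases u with _ | ⟨x, u⟩
    · rfl
    · cases x <;> simp [J0]

@[simp] lemma J_nil (f g : PB) : J f g [] = [] := rfl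
@[simp] lemma J_false (f g : PB) (u : List Bool) : J f g (false :: u) = false :: f u := rfl
@[simp] lemma J_true (f g : PB) (u : List Bool) : J f g (true :: u) = true :: g u := rfl

lemma PB_ext {f g : PB} (h0 : f [] = g []) (h1 : ∀ u, f (false :: u) = g (false :: u))
    (h2 : ∀ u, f (true :: u) = g (true :: u)) : f = g := by
  apply Equiv.ext
  intro u
  rcases u with _ | ⟨x, u⟩
  · exact h0
  · cases x
    · exact h1 u
    · exact h2 u

/-- `J` as a homomorphism. -/
def Jh : PB × PB →* PB where
  toFun x := J x.1 x.2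
  map_one' := by apply PB_ext <;> simp
  map_mul' x y := by apply PB_ext <;> simp

/-- The homomorphism with given values on the generators. -/
def lift4 (A B C D : PB) : FreeGroup Gen →* PB :=
  FreeGroup.lift (fun x => match x with
    | Gen.a => A
    | Gen.b => B
    | Gen.c => C
    | Gen.d => D)

@[simp] lemma lift4_a (A B C D : PB) : lift4 A B C D (of Gen.a) = A := by simp [lift4]
@[simp] lemma lift4_b (A B C D : PB) : lift4 A B C D (of Gen.b) = B := by simp [lift4]
@[simp] lemma lift4_c (A B C D : PB) : lift4 A B C D (of Gen.c) = C := by simp [lift4]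
@[simp] lemma lift4_d (A B C D : PB) : lift4 A B C D (of Gen.d) = D := by simp [lift4]

@[simp] lemma sigma_a : sigma (of Gen.a) = of Gen.a * of Gen.c * of Gen.a := by simp [sigma]
@[simp] lemma sigma_b : sigma (of Gen.b) = of Gen.d := by simp [sigma]
@[simp] lemma sigma_c : sigma (of Gen.c) = of Gen.b := by simp [sigma]
@[simp] lemma sigma_d : sigma (of Gen.d) = of Gen.c := by simp [sigma]

lemma lift4_sigma (A B C D : PB) (w : FreeGroup Gen) :
    lift4 A B C D (sigma w) = lift4 (A * C * A) D B C w := by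
  have h : (lift4 A B C D).comp sigma = lift4 (A * C * A) D B C := by
    apply FreeGroup.ext_hom
    intro x
    cases x <;> simp
  exact DFunLike.congr_fun h w

/-- The relators in `baseRels` are killed. -/
def Kills (A B C D : PB) : Prop := ∀ r ∈ baseRels, lift4 A B C D r = 1

lemma kills_of {A B C D : PB} (h1 : B * C * D = 1) (h2 : (A * D) ^ 4 = 1)
    (h3 : (A * D * A * C * A * C) ^ 4 = 1) (hA : A ^ 2 = 1) (hB : B ^ 2 = 1) (hC : C ^ 2 = 1)
    (hD : D ^ 2 = 1) : Kills A B C D := by
  rintro r (rfl | rfl | rfl | ⟨x, rfl⟩)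
  · simpa using h1
  · simpa using h2
  · simpa using h3
  · cases x
    · simpa using hA
    · simpa using hB
    · simpa using hC
    · simpa using hD

lemma P_sq (g : Gen) : P g * P g = 1 := by
  apply Equiv.ext; intro u; simp

lemma P_sq' (g : Gen) : P g ^ 2 = 1 := by rw [pow_two, P_sq]

lemma P_ad : (P Gen.a * P Gen.d) ^ 4 = 1 := by
  apply PB_ext <;> simp [pow_succ]

lemma P_da : (P Gen.d * P Gen.a) ^ 4 = 1 := by
  apply PB_ext <;> simp [pow_succ]

lemma P_dad : P Gen.d * P Gen.a * P Gen.d * (P Gen.d * P Gen.a * P Gen.d) = 1 := by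
  apply Equiv.ext; intro u; simp

lemma kills_rho : Kills (P Gen.a) (P Gen.b) (P Gen.c) (P Gen.d) := by
  refine kills_of ?_ P_ad ?_ (P_sq' _) (P_sq' _) (P_sq' _) (P_sq' _)
  · apply Equiv.ext
    intro u
    simpa using (act_bcd u).1
  · apply PB_ext <;> simp [pow_succ]

lemma kills_0 : Kills (P Gen.d) 1 (P Gen.a) (P Gen.a) := by
  refine kills_of ?_ P_da ?_ (P_sq' _) (one_pow 2) (P_sq' _) (P_sq' _)
  · rw [one_mul, P_sq]
  · apply PB_ext <;> simp [pow_succ]

lemma kills_1 : Kills (P Gen.d * P Gen.a * P Gen.d) (P Gen.a) 1 (P Gen.a) := by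
  refine kills_of ?_ ?_ ?_ ?_ (P_sq' _) (one_pow 2) (P_sq' _)
  · rw [mul_one, P_sq]
  · apply PB_ext <;> simp [pow_succ]
  · apply PB_ext <;> simp [pow_succ]
  · rw [pow_two, P_dad]

lemma kills_2 : Kills 1 (P Gen.a) (P Gen.a) 1 := by
  refine kills_of ?_ ?_ ?_ (one_pow 2) (P_sq' _) (P_sq' _) (one_pow 2)
  · rw [mul_one, P_sq]
  · simp
  · apply PB_ext <;> simp [pow_succ]

lemma kills_3 : Kills (P Gen.a) 1 (P Gen.a) (P Gen.a) := by
  refine kills_of ?_ ?_ ?_ (P_sq' _) (one_pow 2) (P_sq' _) (P_sq' _)
  · rw [one_mul, P_sq]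
  · rw [P_sq, one_pow]
  · apply PB_ext <;> simp [pow_succ]

lemma kills_4 : Kills (P Gen.a) (P Gen.a) 1 (P Gen.a) := by
  refine kills_of ?_ ?_ ?_ (P_sq' _) (P_sq' _) (one_pow 2) (P_sq' _)
  · rw [mul_one, P_sq]
  · rw [P_sq, one_pow]
  · apply PB_ext <;> simp [pow_succ]

/-- The homomorphism of the free group to the permutations of the binary words. -/
def rho0 : FreeGroup Gen →* PB := lift4 (P Gen.a) (P Gen.b) (P Gen.c) (P Gen.d)

/-- The action of `σ(w)` below `false`. -/
def theta0 : FreeGroup Gen →* PB := lift4 (P Gen.d) 1 (P Gen.a) (P Gen.a)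

lemma kills_iter (n : ℕ) : ∀ r ∈ baseRels,
    theta0 (sigma^[n] r) = 1 ∧
    lift4 (P Gen.d * P Gen.a * P Gen.d) (P Gen.a) 1 (P Gen.a) (sigma^[n] r) = 1 ∧
    lift4 1 (P Gen.a) (P Gen.a) 1 (sigma^[n] r) = 1 ∧
    lift4 (P Gen.a) 1 (P Gen.a) (P Gen.a) (sigma^[n] r) = 1 ∧
    lift4 (P Gen.a) (P Gen.a) 1 (P Gen.a) (sigma^[n] r) = 1 := by
  induction n with
  | zero =>
    intro r hr
    exact ⟨kills_0 r hr, kills_1 r hr, kills_2 r hr, kills_3 r hr, kills_4 r hr⟩
  | succ n ih =>
    intro r hr
    obtain ⟨h0, h1, h2, h3, h4⟩ := ih r hr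
    rw [Function.iterate_succ_apply', theta0, lift4_sigma, lift4_sigma, lift4_sigma, lift4_sigma,
      lift4_sigma]
    refine ⟨h1, ?_, ?_, ?_, ?_⟩
    · rw [mul_one, P_dad]; exact h2
    · rw [one_mul, mul_one]; exact h3
    · rw [P_sq, one_mul]; exact h4
    · rw [mul_one, P_sq]; exact h2

lemma rho0_sigma (w : FreeGroup Gen) : rho0 (sigma w) = J (theta0 w) (rho0 w) := by
  have h : rho0.comp sigma = Jh.comp (theta0.prod rho0) := by
    apply FreeGroup.ext_hom
    intro x
    cases x <;> apply PB_ext <;> simp [rho0, theta0, Jh]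
  exact DFunLike.congr_fun h w

lemma rho0_rels (n : ℕ) : ∀ r ∈ baseRels, rho0 (sigma^[n] r) = 1 := by
  induction n with
  | zero => intro r hr; exact kills_rho r hr
  | succ n ih =>
    intro r hr
    rw [Function.iterate_succ_apply', rho0_sigma, ih r hr, (kills_iter n r hr).1]
    exact Jh.map_one

/-- The action of the group. -/
def rho : Grigorchuk →* PB :=
  QuotientGroup.lift _ rho0 (by
    intro x hx
    have h1 : Subgroup.normalClosure rels ≤ rho0.ker := Subgroup.normalClosure_le_normal (by
      rintro _ ⟨n, r, hr, rfl⟩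
      exact rho0_rels n r hr)
    exact h1 hx)

/-- The action of `σ(g)` below `false`. -/
def theta : Grigorchuk →* PB :=
  QuotientGroup.lift _ theta0 (by
    intro x hx
    have h1 : Subgroup.normalClosure rels ≤ theta0.ker := Subgroup.normalClosure_le_normal (by
      rintro _ ⟨n, r, hr, rfl⟩
      exact (kills_iter n r hr).1)
    exact h1 hx)

/-- The quotient map. -/
def pi : FreeGroup Gen →* Grigorchuk := PresentedGroup.mk rels

lemma pi_surj (g : Grigorchuk) : ∃ w, pi w = g := PresentedGroup.mk_surjective rels g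

lemma pi_rel {x : FreeGroup Gen} (hx : x ∈ rels) : pi x = 1 :=
  (QuotientGroup.eq_one_iff x).2 (Subgroup.subset_normalClosure hx)

lemma rho_pi (w : FreeGroup Gen) : rho (pi w) = rho0 w := rfl

lemma theta_pi (w : FreeGroup Gen) : theta (pi w) = theta0 w := rfl

/-- The endomorphism of the group induced by `σ`. -/
def sig : Grigorchuk →* Grigorchuk :=
  QuotientGroup.lift _ (pi.comp sigma) (by
    intro x hx
    have h1 : Subgroup.normalClosure rels ≤ (pi.comp sigma).ker :=
      Subgroup.normalClosure_le_normal (by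
        rintro _ ⟨n, r, hr, rfl⟩
        change pi (sigma (sigma^[n] r)) = 1
        rw [← Function.iterate_succ_apply' sigma n r]
        exact pi_rel ⟨n + 1, r, hr, rfl⟩)
    exact h1 hx)

lemma sig_pi (w : FreeGroup Gen) : sig (pi w) = pi (sigma w) := rfl

lemma rho_sig (g : Grigorchuk) : rho (sig g) = J (theta g) (rho g) := by
  obtain ⟨w, rfl⟩ := pi_surj g
  rw [sig_pi, rho_pi, rho_pi, theta_pi, rho0_sigma]

/-! ### Relations -/

/-- The generator `a`. -/
def gA : Grigorchuk := pi (of Gen.a)
/-- The generator `b`. -/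
def gB : Grigorchuk := pi (of Gen.b)
/-- The generator `c`. -/
def gC : Grigorchuk := pi (of Gen.c)
/-- The generator `d`. -/
def gD : Grigorchuk := pi (of Gen.d)

lemma pi_base {r : FreeGroup Gen} (hr : r ∈ baseRels) : pi r = 1 := pi_rel ⟨0, r, hr, rfl⟩

lemma pi_base_sigma {r : FreeGroup Gen} (hr : r ∈ baseRels) : pi (sigma r) = 1 :=
  pi_rel ⟨1, r, hr, rfl⟩

lemma sq_gen (x : Gen) : pi (of x) * pi (of x) = 1 := by
  rw [← map_mul, ← pow_two]
  exact pi_base (Or.inr (Or.inr (Or.inr ⟨x, rfl⟩)))

@[simp] lemma AA : gA * gA = 1 := sq_gen _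
@[simp] lemma BB : gB * gB = 1 := sq_gen _
@[simp] lemma CC : gC * gC = 1 := sq_gen _
@[simp] lemma DD : gD * gD = 1 := sq_gen _

@[simp] lemma AAx (x : Grigorchuk) : gA * (gA * x) = x := by rw [← mul_assoc, AA, one_mul]
@[simp] lemma BBx (x : Grigorchuk) : gB * (gB * x) = x := by rw [← mul_assoc, BB, one_mul]
@[simp] lemma CCx (x : Grigorchuk) : gC * (gC * x) = x := by rw [← mul_assoc, CC, one_mul]
@[simp] lemma DDx (x : Grigorchuk) : gD * (gD * x) = x := by rw [← mul_assoc, DD, one_mul]

@[simp] lemma Ai : gA⁻¹ = gA := inv_eq_of_mul_eq_one_left AA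
@[simp] lemma Bi : gB⁻¹ = gB := inv_eq_of_mul_eq_one_left BB
@[simp] lemma Ci : gC⁻¹ = gC := inv_eq_of_mul_eq_one_left CC
@[simp] lemma Di : gD⁻¹ = gD := inv_eq_of_mul_eq_one_left DD

lemma BCD : gB * gC * gD = 1 := by
  have := pi_base (r := of Gen.b * of Gen.c * of Gen.d) (Or.inl rfl)
  rwa [map_mul, map_mul] at this

lemma AD4 : (gA * gD) ^ 4 = 1 := by
  have := pi_base (r := (of Gen.a * of Gen.d) ^ 4) (Or.inr (Or.inl rfl))
  rwa [map_pow, map_mul] at this

lemma R6 : (gA * gD * gA * gC * gA * gC) ^ 4 = 1 := by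
  have := pi_base (r := (of Gen.a * of Gen.d * of Gen.a * of Gen.c * of Gen.a * of Gen.c) ^ 4)
    (Or.inr (Or.inr (Or.inl rfl)))
  simp only [map_pow, map_mul] at this
  exact this

lemma AC4 : (gA * gC * gA * gC) ^ 4 = 1 := by
  have := pi_base_sigma (r := (of Gen.a * of Gen.d) ^ 4) (Or.inr (Or.inl rfl))
  simp only [map_pow, map_mul, sigma_a, sigma_d] at this
  exact this

@[simp] lemma sig_A : sig gA = gA * gC * gA := by
  rw [gA, sig_pi, sigma_a, map_mul, map_mul]; rfl
@[simp] lemma sig_B : sig gB = gD := by rw [gB, sig_pi, sigma_b]; rfl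
@[simp] lemma sig_C : sig gC = gB := by rw [gC, sig_pi, sigma_c]; rfl
@[simp] lemma sig_D : sig gD = gC := by rw [gD, sig_pi, sigma_d]; rfl

@[simp] lemma BC : gB * gC = gD := by
  have := mul_eq_one_iff_eq_inv.1 BCD
  rwa [Di] at this
@[simp] lemma CB : gC * gB = gD := by
  have := congrArg (fun x => x⁻¹) BC
  simpa only [mul_inv_rev, Bi, Ci, Di] using this
@[simp] lemma BD : gB * gD = gC := by rw [← BC, BBx]
@[simp] lemma DB : gD * gB = gC := by rw [← CB, mul_assoc, BB, mul_one]
@[simp] lemma CD : gC * gD = gB := by rw [← CB, CCx]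
@[simp] lemma DC : gD * gC = gB := by rw [← BC, mul_assoc, CC, mul_one]

@[simp] lemma BCx (x : Grigorchuk) : gB * (gC * x) = gD * x := by rw [← mul_assoc, BC]
@[simp] lemma CBx (x : Grigorchuk) : gC * (gB * x) = gD * x := by rw [← mul_assoc, CB]
@[simp] lemma BDx (x : Grigorchuk) : gB * (gD * x) = gC * x := by rw [← mul_assoc, BD]
@[simp] lemma DBx (x : Grigorchuk) : gD * (gB * x) = gC * x := by rw [← mul_assoc, DB]
@[simp] lemma CDx (x : Grigorchuk) : gC * (gD * x) = gB * x := by rw [← mul_assoc, CD]
@[simp] lemma DCx (x : Grigorchuk) : gD * (gC * x) = gB * x := by rw [← mul_assoc, DC]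

lemma comm_of_sq {x y : Grigorchuk} (hx : x * x = 1) (hy : y * y = 1)
    (h : x * y * (x * y) = 1) : Commute x y := by
  have h1 := mul_eq_one_iff_eq_inv.1 h
  rw [mul_inv_rev, inv_eq_of_mul_eq_one_left hx, inv_eq_of_mul_eq_one_left hy] at h1
  exact h1

/-- Conjugates of `d`. -/
def l1 : Grigorchuk := gA * gD * gA
/-- Conjugates of `d`. -/
def l2 : Grigorchuk := gC * l1 * gC
/-- Conjugates of `d`. -/
def l3 : Grigorchuk := gA * gC * gA * l2 * (gA * gC * gA)
/-- Conjugates of `d`. -/
def l4 : Grigorchuk := gC * l3 * gC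

lemma comm_l1 : Commute gD l1 := by
  apply comm_of_sq DD
  · simp [l1, mul_assoc]
  · have h : gD * l1 * (gD * l1) = gA * (gA * gD) ^ 4 * gA := by simp [l1, pow_succ, mul_assoc]
    rw [h, AD4]; simp

lemma comm_l2 : Commute gD l2 := by
  have h := comm_l1
  apply comm_of_sq DD
  · simp [l2, l1, mul_assoc]
  · have h' : gD * l2 * (gD * l2) = gC * (gA * (gA * gD) ^ 4 * gA) * gC := by
      simp [l2, l1, pow_succ, mul_assoc]
    rw [h', AD4]; simp

lemma comm_l3 : Commute gD l3 := by
  apply comm_of_sq DD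
  · simp [l3, l2, l1, mul_assoc]
  · have h' : gD * l3 * (gD * l3) = gA * (gA * gD * gA * gC * gA * gC) ^ 4 * gA := by
      simp [l3, l2, l1, pow_succ, mul_assoc]
    rw [h', R6]; simp

lemma comm_l4 : Commute gD l4 := by
  apply comm_of_sq DD
  · simp [l4, l3, l2, l1, mul_assoc]
  · have h' : gD * l4 * (gD * l4) = gC * (gA * (gA * gD * gA * gC * gA * gC) ^ 4 * gA) * gC := by
      simp [l4, l3, l2, l1, pow_succ, mul_assoc]
    rw [h', R6]; simp

/-- The four conjugates of `d`. -/
def InS (x : Grigorchuk) : Prop := x = l1 ∨ x = l2 ∨ x = l3 ∨ x = l4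

lemma comm_S {x : Grigorchuk} (hx : InS x) : Commute gD x := by
  rcases hx with rfl | rfl | rfl | rfl
  · exact comm_l1
  · exact comm_l2
  · exact comm_l3
  · exact comm_l4

/-- Induction over words in the generators. -/
lemma gen_induction {Q : Grigorchuk → Prop} (h1 : Q 1) (hA : Q gA) (hB : Q gB) (hC : Q gC)
    (hD : Q gD) (hm : ∀ x y, Q x → Q y → Q (x * y)) (g : Grigorchuk) : Q g := by
  obtain ⟨w, rfl⟩ := pi_surj g
  have hgen : ∀ x : Gen, Q (pi (of x)) := by
    intro x
    cases x
    · exact hA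
    · exact hB
    · exact hC
    · exact hD
  refine FreeGroup.induction_on (C := fun w => Q (pi w)) w ?_ ?_ ?_ ?_
  · rw [map_one]; exact h1
  · exact hgen
  · intro x _
    rw [map_inv, inv_eq_of_mul_eq_one_left (sq_gen x)]
    exact hgen x
  · intro x y hx hy
    rw [map_mul]; exact hm _ _ hx hy

lemma x8 : gA * (gC * (gA * (gC * (gA * (gC * (gA * (gC * gA))))))) =
    gC * (gA * (gC * (gA * (gC * (gA * gC))))) := by
  have h1 : (gA * gC * gA * gC) ^ 4 = (gA * gC) ^ 4 * (gA * gC) ^ 4 := by
    simp [pow_succ, mul_assoc]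
  rw [AC4] at h1
  have h2 := mul_eq_one_iff_eq_inv.1 h1.symm
  have h3 : (gA * gC) ^ 4 * gA = ((gA * gC) ^ 4)⁻¹ * gA := by rw [← h2]
  simpa [pow_succ, mul_assoc] using h3

lemma conj_A {x : Grigorchuk} (hx : InS x) : InS (gA * gC * gA * x * (gA * gC * gA)) := by
  rcases hx with rfl | rfl | rfl | rfl
  · left; simp [l1, mul_assoc]
  · right; right; left; rfl
  · right; left; simp [l3, mul_assoc]
  · right; right; right
    have h : gA * gC * gA * l4 * (gA * gC * gA) =
        (gA * (gC * (gA * (gC * (gA * (gC * (gA * (gC * gA)))))))) * gD *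
        (gA * (gC * (gA * (gC * (gA * (gC * (gA * (gC * gA)))))))) := by
      simp [l4, l3, l2, l1, mul_assoc]
    rw [h, x8]
    simp [l4, l3, l2, l1, mul_assoc]

lemma conj_C {x : Grigorchuk} (hx : InS x) : InS (gC * x * gC) := by
  rcases hx with rfl | rfl | rfl | rfl
  · right; left; rfl
  · left; simp [l2, mul_assoc]
  · right; right; right; rfl
  · right; right; left; simp [l4, mul_assoc]

lemma conj_D {x : Grigorchuk} (hx : InS x) : gD * x * gD = x := by
  rw [(comm_S hx).eq, mul_assoc, DD, mul_one]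

lemma conj_B {x : Grigorchuk} (hx : InS x) : InS (gB * x * gB) := by
  have h : gB * x * gB = gC * (gD * x * gD) * gC := by simp [mul_assoc]
  rw [h, conj_D hx]
  exact conj_C hx

lemma S_conj (g : Grigorchuk) : ∀ x, InS x → InS (sig g * x * (sig g)⁻¹) := by
  apply gen_induction (Q := fun g => ∀ x, InS x → InS (sig g * x * (sig g)⁻¹))
  · intro x hx; simpa using hx
  · intro x hx
    have := conj_A hx
    simpa [mul_assoc] using this
  · intro x hx
    rw [sig_B, Di, conj_D hx]
    exact hx
  · intro x hx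
    rw [sig_C, Bi]
    exact conj_B hx
  · intro x hx
    rw [sig_D, Ci]
    exact conj_C hx
  · intro g g' hg hg' x hx
    have := hg _ (hg' x hx)
    rw [map_mul]
    simpa [mul_assoc] using this

/-- The normal closure of `b`. -/
def BN : Subgroup Grigorchuk := Subgroup.normalClosure {gB}

instance : BN.Normal := Subgroup.normalClosure_normal

lemma comm_S_BN {x : Grigorchuk} (hx : x ∈ BN) : ∀ l, InS l → Commute l (sig x) := by
  have hN : ((Subgroup.centralizer {l | InS l}).comap sig).Normal := by
    refine ⟨fun n hn g => ?_⟩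
    rw [Subgroup.mem_comap, Subgroup.mem_centralizer_iff] at hn ⊢
    intro l hl
    have h1 := hn _ (S_conj g⁻¹ l hl)
    have h2 : Commute (sig g⁻¹ * l * (sig g⁻¹)⁻¹) (sig n) := h1
    have h3 := h2.map (MulAut.conj (sig g)).toMonoidHom
    have h4 : (MulAut.conj (sig g)).toMonoidHom (sig g⁻¹ * l * (sig g⁻¹)⁻¹) = l := by
      simp [mul_assoc]
    rw [h4] at h3
    have h5 : (MulAut.conj (sig g)).toMonoidHom (sig n) = sig (g * n * g⁻¹) := by
      simp
    rw [h5] at h3
    exact h3
  have h1 : BN ≤ (Subgroup.centralizer {l | InS l}).comap sig := by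
    apply Subgroup.normalClosure_le_normal
    intro y hy
    rw [Set.mem_singleton_iff] at hy
    subst hy
    rw [SetLike.mem_coe, Subgroup.mem_comap, Subgroup.mem_centralizer_iff, sig_B]
    intro l hl
    exact (comm_S hl).symm.eq
  intro l hl
  have h2 := h1 hx
  rw [Subgroup.mem_comap, Subgroup.mem_centralizer_iff] at h2
  exact h2 l hl

lemma comm_D {y : Grigorchuk} (hy : y ∈ BN) : Commute gD (gA * sig y * gA) := by
  have h1 := (comm_S_BN hy l1 (Or.inl rfl)).map (MulAut.conj gA).toMonoidHom
  have h2 : (MulAut.conj gA).toMonoidHom l1 = gD := by simp [l1, mul_assoc]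
  have h3 : (MulAut.conj gA).toMonoidHom (sig y) = gA * sig y * gA := by simp
  rwa [h2, h3] at h1

lemma L_conj (g : Grigorchuk) : ∀ x, (∃ y ∈ BN, x = gA * sig y * gA) →
    ∃ y ∈ BN, sig g * x * (sig g)⁻¹ = gA * sig y * gA := by
  have hC : ∀ x, (∃ y ∈ BN, x = gA * sig y * gA) → ∃ y ∈ BN, gC * x * gC = gA * sig y * gA := by
    rintro _ ⟨y, hy, rfl⟩
    refine ⟨gA * y * gA⁻¹, Subgroup.Normal.conj_mem inferInstance y hy gA, ?_⟩
    simp [mul_assoc]
  apply gen_induction (Q := fun g => ∀ x, (∃ y ∈ BN, x = gA * sig y * gA) →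
    ∃ y ∈ BN, sig g * x * (sig g)⁻¹ = gA * sig y * gA)
  · rintro x ⟨y, hy, rfl⟩; exact ⟨y, hy, by simp⟩
  · rintro _ ⟨y, hy, rfl⟩
    refine ⟨gD * y * gD⁻¹, Subgroup.Normal.conj_mem inferInstance y hy gD, ?_⟩
    simp [mul_assoc]
  · rintro _ ⟨y, hy, rfl⟩
    refine ⟨y, hy, ?_⟩
    rw [sig_B, (comm_D hy).eq]
    simp [mul_assoc]
  · rintro _ ⟨y, hy, rfl⟩
    have h1 := hC (gA * sig y * gA) ⟨y, hy, rfl⟩
    have h2 : sig gC * (gA * sig y * gA) * (sig gC)⁻¹ = gC * (gA * sig y * gA) * gC := by
      have h3 : gD * (gA * sig y * gA) * gD = gA * sig y * gA := by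
        rw [(comm_D hy).eq, mul_assoc, DD, mul_one]
      conv_rhs => rw [← h3]
      simp [mul_assoc]
    rw [h2]
    exact h1
  · intro x hx
    have := hC x hx
    simpa using this
  · intro g g' hg hg' x hx
    have := hg _ (hg' x hx)
    rw [map_mul]
    simpa [mul_assoc] using this

/-- The images of the normal closure of `b` under `σ` and under `a σ a` commute. -/
lemma comm_RL {x y : Grigorchuk} (hx : x ∈ BN) (hy : y ∈ BN) :
    Commute (sig x) (gA * sig y * gA) := by
  have hN : ((Subgroup.centralizer {l | ∃ y ∈ BN, l = gA * sig y * gA}).comap sig).Normal := by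
    refine ⟨fun n hn g => ?_⟩
    rw [Subgroup.mem_comap, Subgroup.mem_centralizer_iff] at hn ⊢
    intro l hl
    have h1 := hn _ (L_conj g⁻¹ l hl)
    have h2 : Commute (sig g⁻¹ * l * (sig g⁻¹)⁻¹) (sig n) := h1
    have h3 := h2.map (MulAut.conj (sig g)).toMonoidHom
    have h4 : (MulAut.conj (sig g)).toMonoidHom (sig g⁻¹ * l * (sig g⁻¹)⁻¹) = l := by
      simp [mul_assoc]
    rw [h4] at h3
    have h5 : (MulAut.conj (sig g)).toMonoidHom (sig n) = sig (g * n * g⁻¹) := by
      simp
    rw [h5] at h3
    exact h3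
  have h1 : BN ≤ (Subgroup.centralizer {l | ∃ y ∈ BN, l = gA * sig y * gA}).comap sig := by
    apply Subgroup.normalClosure_le_normal
    intro z hz
    rw [Set.mem_singleton_iff] at hz
    subst hz
    rw [SetLike.mem_coe, Subgroup.mem_comap, Subgroup.mem_centralizer_iff, sig_B]
    rintro _ ⟨y, hy, rfl⟩
    exact (comm_D hy).symm.eq
  have h2 := h1 hx
  rw [Subgroup.mem_comap, Subgroup.mem_centralizer_iff] at h2
  exact (h2 _ ⟨y, hy, rfl⟩).symm

/-! ### The commuting elements -/

/-- The element `(ab)^2`. -/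
def t : Grigorchuk := gA * gB * gA * gB

/-- The normal closure of `(ab)^2`. -/
def KN : Subgroup Grigorchuk := Subgroup.normalClosure {t}

instance : KN.Normal := Subgroup.normalClosure_normal

lemma t_mem : t ∈ KN := Subgroup.subset_normalClosure rfl

lemma gB_mem : gB ∈ BN := Subgroup.subset_normalClosure rfl

lemma KN_le : KN ≤ BN := by
  apply Subgroup.normalClosure_le_normal
  intro y hy
  rw [Set.mem_singleton_iff] at hy
  subst hy
  have h1 : t = gA * gB * gA⁻¹ * gB := by simp [t]
  rw [SetLike.mem_coe, h1]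
  exact BN.mul_mem (Subgroup.Normal.conj_mem inferInstance gB gB_mem gA) gB_mem

lemma sig_t : sig t = t * (gC * t * gC⁻¹) := by
  have h1 : sig t = gA * gB * (gD * l1 * gD) * (gB * gA * gD) := by
    simp [t, l1, mul_assoc]
  rw [h1, conj_D (Or.inl rfl)]
  simp [t, l1, mul_assoc]

lemma sig_mem {x : Grigorchuk} (hx : x ∈ KN) : sig x ∈ KN := by
  have h1 : KN ≤ KN.comap sig := by
    apply Subgroup.normalClosure_le_normal
    intro y hy
    rw [Set.mem_singleton_iff] at hy
    subst hy
    rw [SetLike.mem_coe, Subgroup.mem_comap, sig_t]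
    exact KN.mul_mem t_mem (Subgroup.Normal.conj_mem inferInstance t t_mem gC)
  exact h1 hx

/-- The two homomorphisms `σ` and `a σ a`. -/
def s : Bool → Grigorchuk →* Grigorchuk
  | true => sig
  | false => (MulAut.conj gA).toMonoidHom.comp sig

@[simp] lemma s_true (x : Grigorchuk) : s true x = sig x := rfl

@[simp] lemma s_false (x : Grigorchuk) : s false x = gA * sig x * gA := by
  change gA * sig x * gA⁻¹ = _
  rw [Ai]

lemma s_mem (i : Bool) {x : Grigorchuk} (hx : x ∈ KN) : s i x ∈ KN := by
  cases i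
  · rw [s_false]
    have := Subgroup.Normal.conj_mem (H := KN) inferInstance _ (sig_mem hx) gA
    rwa [Ai] at this
  · exact sig_mem hx

/-- The copy of `(ab)^2` at the vertex `z`. -/
def e : List Bool → Grigorchuk
  | [] => t
  | i :: z => s i (e z)

lemma e_mem (z : List Bool) : e z ∈ KN := by
  induction z with
  | nil => exact t_mem
  | cons i z ih => exact s_mem i ih

lemma e_comm : ∀ z z' : List Bool, z.length = z'.length → Commute (e z) (e z') := by
  intro z
  induction z with
  | nil =>
    intro z' h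
    cases z' with
    | nil => exact Commute.refl _
    | cons i z' => simp at h
  | cons i z ih =>
    intro z' h
    cases z' with
    | nil => simp at h
    | cons i' z' =>
      have h1 := ih z' (by simpa using h)
      have m1 := KN_le (e_mem z)
      have m2 := KN_le (e_mem z')
      cases i <;> cases i'
      · exact h1.map (s false)
      · change Commute (s false (e z)) (s true (e z'))
        rw [s_false, s_true]
        exact (comm_RL m2 m1).symm
      · change Commute (s true (e z)) (s false (e z'))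
        rw [s_false, s_true]
        exact comm_RL m1 m2
      · exact h1.map (s true)

lemma theta_KN {x : Grigorchuk} (hx : x ∈ KN) : theta x = 1 := by
  have h1 : KN ≤ theta.ker := by
    apply Subgroup.normalClosure_le_normal
    intro y hy
    rw [Set.mem_singleton_iff] at hy
    subst hy
    change theta t = 1
    have h2 : theta t = P Gen.d * 1 * P Gen.d * 1 := by
      rw [t, map_mul, map_mul, map_mul]
      simp only [gA, gB, theta_pi, theta0, lift4_a, lift4_b]
    rw [h2, mul_one, mul_one, P_sq]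
  exact h1 hx

lemma rho_A : rho gA = P Gen.a := by rw [gA, rho_pi, rho0, lift4_a]

lemma rho_s {x : Grigorchuk} (hx : x ∈ KN) (i : Bool) (u : List Bool) :
    rho (s i x) (i :: u) = i :: rho x u ∧ rho (s i x) ((!i) :: u) = (!i) :: u := by
  cases i
  · rw [s_false, map_mul, map_mul, rho_sig, theta_KN hx, rho_A]
    simp
  · rw [s_true, rho_sig, theta_KN hx]
    simp

lemma e_same (z u : List Bool) : rho (e z) (z ++ u) = z ++ rho t u := by
  induction z with
  | nil => rfl
  | cons i z ih =>
    change rho (s i (e z)) (i :: (z ++ u)) = i :: (z ++ rho t u)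
    rw [(rho_s (e_mem z) i _).1, ih]

lemma e_diff : ∀ z z' u : List Bool, z.length = z'.length → z ≠ z' →
    rho (e z) (z' ++ u) = z' ++ u := by
  intro z
  induction z with
  | nil =>
    intro z' u h hne
    cases z' with
    | nil => exact absurd rfl hne
    | cons i z' => simp at h
  | cons i z ih =>
    intro z' u h hne
    cases z' with
    | nil => simp at h
    | cons i' z' =>
      change rho (s i (e z)) (i' :: (z' ++ u)) = i' :: (z' ++ u)
      by_cases hi : i = i'
      · subst hi
        rw [(rho_s (e_mem z) i _).1, ih z' u (by simpa using h) (fun h' => hne (by rw [h']))]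
      · have hi' : i' = !i := by cases i <;> cases i' <;> simp_all
        rw [hi', (rho_s (e_mem z) i _).2]

lemma rho_t_ne : rho t [false, false] ≠ [false, false] := by
  rw [t, map_mul, map_mul, map_mul]
  simp [gA, gB, rho_pi, rho0]

/-! ### Words -/

/-- The value of a word in the generators. -/
def gv (w : List Gen) : Grigorchuk := (w.map (fun x => pi (of x))).prod

@[simp] lemma gv_nil : gv [] = 1 := rfl

@[simp] lemma gv_cons (x : Gen) (w : List Gen) : gv (x :: w) = pi (of x) * gv w := by simp [gv]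

@[simp] lemma gv_append (u v : List Gen) : gv (u ++ v) = gv u * gv v := by simp [gv]

/-- The substitution `σ` on letters. -/
def sw : Gen → List Gen
  | Gen.a => [Gen.a, Gen.c, Gen.a]
  | Gen.b => [Gen.d]
  | Gen.c => [Gen.b]
  | Gen.d => [Gen.c]

lemma gv_sw (w : List Gen) : gv (w.flatMap sw) = sig (gv w) := by
  induction w with
  | nil => simp
  | cons x w ih =>
    rw [List.flatMap_cons, gv_append, ih, gv_cons, map_mul]
    congr 1
    rw [sig_pi]
    cases x <;> simp [sw, mul_assoc]

lemma length_sw (w : List Gen) : (w.flatMap sw).length ≤ 3 * w.length := by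
  induction w with
  | nil => simp
  | cons x w ih =>
    rw [List.flatMap_cons, List.length_append, List.length_cons]
    have : (sw x).length ≤ 3 := by cases x <;> simp [sw]
    omega

/-- A word for the element `e z`. -/
def wd : List Bool → List Gen
  | [] => [Gen.a, Gen.b, Gen.a, Gen.b]
  | true :: z => (wd z).flatMap sw
  | false :: z => Gen.a :: (wd z).flatMap sw ++ [Gen.a]

lemma gv_wd (z : List Bool) : gv (wd z) = e z := by
  induction z with
  | nil => simp [wd, e, t, gA, gB, mul_assoc]
  | cons i z ih =>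
    cases i
    · change gv (Gen.a :: (wd z).flatMap sw ++ [Gen.a]) = s false (e z)
      rw [gv_append, gv_cons, gv_sw, ih, s_false]
      simp [gA]
    · change gv ((wd z).flatMap sw) = s true (e z)
      rw [gv_sw, ih, s_true]

lemma length_wd (z : List Bool) : (wd z).length + 1 ≤ 5 * 3 ^ z.length := by
  induction z with
  | nil => simp [wd]
  | cons i z ih =>
    have h1 := length_sw (wd z)
    have h2 : 5 * 3 ^ (i :: z).length = 3 * (5 * 3 ^ z.length) := by
      rw [List.length_cons, pow_succ]; ring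
    rw [h2]
    cases i
    · change (Gen.a :: (wd z).flatMap sw ++ [Gen.a]).length + 1 ≤ _
      simp only [List.length_append, List.length_cons, List.length_nil]
      omega
    · change ((wd z).flatMap sw).length + 1 ≤ _
      omega

lemma gv_reverse (w : List Gen) : gv w.reverse = (gv w)⁻¹ := by
  induction w with
  | nil => simp
  | cons x w ih =>
    rw [List.reverse_cons, gv_append, ih, gv_cons, gv_nil, mul_one, gv_cons, mul_inv_rev,
      inv_eq_of_mul_eq_one_left (sq_gen x)]

/-- A trivial word of length `k`, for `k ≥ 2`. -/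
def pad (k : ℕ) : List Gen :=
  if k % 2 = 0 then List.replicate k Gen.a
  else Gen.b :: Gen.c :: Gen.d :: List.replicate (k - 3) Gen.a

lemma length_pad {k : ℕ} (hk : 2 ≤ k) : (pad k).length = k := by
  unfold pad
  split_ifs with h
  · simp
  · simp; omega

lemma gv_replicate (k : ℕ) (hk : k % 2 = 0) : gv (List.replicate k Gen.a) = 1 := by
  obtain ⟨j, rfl⟩ : ∃ j, k = 2 * j := ⟨k / 2, by omega⟩
  unfold gv
  rw [List.map_replicate, List.prod_replicate, pow_mul, pow_two, sq_gen, one_pow]

lemma gv_pad {k : ℕ} (hk : 2 ≤ k) : gv (pad k) = 1 := by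
  unfold pad
  split_ifs with h
  · exact gv_replicate k h
  · rw [gv_cons, gv_cons, gv_cons, gv_replicate (k - 3) (by omega), mul_one, ← mul_assoc]
    exact BCD

/-- The word as a word over the alphabet of 8 letters. -/
def up (w : List Gen) : List (Gen × Bool) := w.map (fun x => (x, true))

lemma ev_up (w : List Gen) : ev letter (up w) = gv w := by
  unfold ev up gv
  rw [List.map_map]
  rfl

/-- The vertex number `b` of level `j`. -/
def zs : ℕ → ℕ → List Bool
  | 0, _ => []
  | j + 1, b => (b % 2 == 1) :: zs j (b / 2)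

lemma length_zs (j b : ℕ) : (zs j b).length = j := by
  induction j generalizing b with
  | zero => rfl
  | succ j ih => simp [zs, ih]

lemma zs_inj (j : ℕ) : ∀ b b' : ℕ, b < 2 ^ j → b' < 2 ^ j → zs j b = zs j b' → b = b' := by
  induction j with
  | zero => intro b b' h h' _; simp at h h'; omega
  | succ j ih =>
    intro b b' h h' heq
    simp only [zs, List.cons.injEq] at heq
    have h1 := ih (b / 2) (b' / 2) (by rw [pow_succ] at h; omega) (by rw [pow_succ] at h'; omega)
      heq.2
    have h2 : b % 2 = b' % 2 := by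
      have h3 := heq.1
      rcases Nat.mod_two_eq_zero_or_one b with h4 | h4 <;>
        rcases Nat.mod_two_eq_zero_or_one b' with h5 | h5 <;> rw [h4, h5] at h3 <;> simp_all
    omega

/-! ### The family -/

/-- The length of the words of level `j`. -/
def len (j : ℕ) : ℕ := 5 * 3 ^ j + 1

lemma g_comm (j : ℕ) : ∀ i i', Commute (e (zs j i)) (e (zs j i')) := fun i i' =>
  e_comm _ _ (by rw [length_zs, length_zs])

lemma wd_le (j b : ℕ) : (wd (zs j b)).length + 2 ≤ len j := by
  have := length_wd (zs j b)
  rw [length_zs] at this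
  unfold len
  omega

/-- The family of words of level `j`. -/
noncomputable def fam (j : ℕ) : @Fam (Gen × Bool) Grigorchuk _ letter
    (CK (fun b => e (zs j b))) (instCK _ (g_comm j)) :=
  famOf letter (fun b => e (zs j b)) (g_comm j) (len j) (by unfold len; omega)
    (fun b => up (wd (zs j b) ++ pad (len j - (wd (zs j b)).length)))
    (fun b => up ((wd (zs j b)).reverse ++ pad (len j - (wd (zs j b)).length)))
    (up (pad (len j)))
    (by
      intro b
      have := wd_le j b
      simp only [up, List.length_map, List.length_append]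
      rw [length_pad (by omega)]
      omega)
    (by
      intro b
      have := wd_le j b
      simp only [up, List.length_map, List.length_append, List.length_reverse]
      rw [length_pad (by omega)]
      omega)
    (by
      have := wd_le j 0
      simp only [up, List.length_map]
      exact length_pad (by omega))
    (by
      intro b
      have := wd_le j b
      rw [ev_up, gv_append, gv_wd, gv_pad (by omega), mul_one])
    (by
      intro b
      have := wd_le j b
      rw [ev_up, gv_append, gv_reverse, gv_wd, gv_pad (by omega), mul_one])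
    (by
      have := wd_le j 0
      rw [ev_up, gv_pad (by omega)])

lemma fam_phi (j b : ℕ) : letI := instCK _ (g_comm j); (fam j).φ ((fam j).κ b) = e (zs j b) := rfl

lemma phi_zsmul {T G K : Type} [Group G] [AddCommGroup K] {h : T → G} (F : Fam h K) (n : ℤ)
    (x : K) : F.φ (n • x) = F.φ x ^ n := by
  let f : K →+ Additive G :=
    { toFun := fun x => Additive.ofMul (F.φ x)
      map_zero' := by rw [F.φ_zero]; rfl
      map_add' := fun x y => by rw [F.φ_add]; rfl }
  exact map_zsmul f n x

lemma zpow_same {f g : PB} {z : List Bool} (hfg : ∀ u, f (z ++ u) = z ++ g u) (n : ℤ) :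
    ∀ u, (f ^ n) (z ++ u) = z ++ (g ^ n) u := by
  have hnat : ∀ {f g : PB}, (∀ u, f (z ++ u) = z ++ g u) → ∀ (n : ℕ) (u : List Bool),
      (f ^ n) (z ++ u) = z ++ (g ^ n) u := by
    intro f g hfg n
    induction n with
    | zero => intro u; simp
    | succ n ih =>
      intro u
      rw [pow_succ', pow_succ', Equiv.Perm.mul_apply, Equiv.Perm.mul_apply, ih, hfg]
  have hinv : ∀ u, f⁻¹ (z ++ u) = z ++ g⁻¹ u := by
    intro u
    rw [Equiv.Perm.inv_eq_iff_eq, hfg]
    simp
  intro u
  obtain ⟨k, rfl | rfl⟩ := n.eq_nat_or_neg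
  · rw [zpow_natCast, zpow_natCast]
    exact hnat hfg k u
  · rw [zpow_neg, zpow_neg, zpow_natCast, zpow_natCast, ← inv_pow, ← inv_pow]
    exact hnat hinv k u

lemma act_sum (j : ℕ) {b₀ : ℕ} (hb₀ : b₀ < 2 ^ j) (d : ℕ → ℤ) (S : Finset ℕ)
    (hS : ∀ b ∈ S, b < 2 ^ j) : letI := instCK _ (g_comm j)
    ∀ u, rho ((fam j).φ (∑ b ∈ S, d b • (fam j).κ b)) (zs j b₀ ++ u) =
      zs j b₀ ++ (if b₀ ∈ S then (rho t ^ d b₀) u else u) := by
  letI := instCK _ (g_comm j)
  induction S using Finset.induction_on with
  | empty =>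
    intro u
    rw [Finset.sum_empty, (fam j).φ_zero, map_one]
    simp
  | insert b S hb ih =>
    intro u
    have ih' := ih (fun b hb => hS b (Finset.mem_insert_of_mem hb))
    rw [Finset.sum_insert hb, (fam j).φ_add, map_mul, Equiv.Perm.mul_apply, ih', phi_zsmul,
      fam_phi, map_zpow]
    by_cases h : b = b₀
    · subst h
      rw [if_neg hb, if_pos (Finset.mem_insert_self _ _)]
      exact zpow_same (fun u => e_same _ _) _ _
    · have h2 : b₀ ∈ insert b S ↔ b₀ ∈ S := by
        rw [Finset.mem_insert]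
        constructor
        · rintro (h3 | h3)
          · exact absurd h3.symm h
          · exact h3
        · exact Or.inr
      have h3 : ∀ v, (rho (e (zs j b)) ^ d b) (zs j b₀ ++ v) = zs j b₀ ++ v := by
        intro v
        apply Equiv.Perm.zpow_apply_eq_self_of_apply_eq_self
        apply e_diff
        · rw [length_zs, length_zs]
        · intro h4
          exact h (zs_inj j _ _ (hS b (Finset.mem_insert_self _ _)) hb₀ h4)
      rw [h3]
      simp only [h2]

lemma independent (j : ℕ) (d : ℕ → ℤ) (hd : ∀ b, |d b| ≤ 1) : letI := instCK _ (g_comm j)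
    ∑ b ∈ Finset.range (2 ^ j), d b • (fam j).κ b = 0 → ∀ b, b < 2 ^ j → d b = 0 := by
  letI := instCK _ (g_comm j)
  intro hsum b hb
  have h1 := act_sum j hb d (Finset.range (2 ^ j)) (fun b hb => Finset.mem_range.1 hb)
    [false, false]
  rw [hsum, (fam j).φ_zero, map_one, if_pos (Finset.mem_range.2 hb), Equiv.Perm.one_apply] at h1
  have h2 := (List.append_cancel_left h1).symm
  have h3 := abs_le.1 (hd b)
  have h4 : d b = -1 ∨ d b = 0 ∨ d b = 1 := by omega
  rcases h4 with h4 | h4 | h4
  · exfalso
    rw [h4, zpow_neg_one, Equiv.Perm.inv_eq_iff_eq] at h2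
    exact rho_t_ne h2.symm
  · exact h4
  · exfalso
    rw [h4, zpow_one] at h2
    exact rho_t_ne h2

lemma exists_level (C : ℕ) : ∃ j : ℕ, (len j + 1) ^ C ≤ 2 ^ 2 ^ j := by
  refine ⟨2 * C + 8, ?_⟩
  set j := 2 * C + 8 with hj
  have h1 : len j + 1 ≤ 2 ^ (3 + 2 * j) := by
    have h2 : 3 ^ j ≤ 4 ^ j := Nat.pow_le_pow_left (by norm_num) j
    have h3 : 1 ≤ 4 ^ j := Nat.one_le_pow _ _ (by norm_num)
    have h4 : (2 : ℕ) ^ (3 + 2 * j) = 8 * 4 ^ j := by
      rw [pow_add, pow_mul]; norm_num
    rw [h4]
    unfold len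
    omega
  calc (len j + 1) ^ C ≤ (2 ^ (3 + 2 * j)) ^ C := Nat.pow_le_pow_left h1 C
    _ = 2 ^ ((3 + 2 * j) * C) := by rw [← pow_mul]
    _ ≤ 2 ^ 2 ^ j := by
      apply Nat.pow_le_pow_right (by norm_num)
      have h5 : C < 2 ^ C := Nat.lt_two_pow_self
      have h6 : (2 : ℕ) ^ j = 256 * (2 ^ C * 2 ^ C) := by
        rw [hj, pow_add, pow_mul', pow_two]; norm_num; ring
      rw [h6, hj]
      nlinarith

/-- **The word problem of the Grigorchuk group is not an indexed language.** -/
theorem result : ¬ IsIndexed wordProblem := by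
  apply not_isIndexed_of_families (h := letter)
  intro C
  obtain ⟨j, hj⟩ := exists_level C
  exact ⟨CK (fun b => e (zs j b)), instCK _ (g_comm j), fam j, 2 ^ j, hj, independent j⟩

end Pool.Agent.Results.MP_71689c_al.NotIndexed
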